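import Pool.Agent.N929.EG.LenF

/-!
# Systems of moves with geometric weights: complex weights
-/

set_option autoImplicit false
set_option linter.unusedVariables false

namespace Run7.h106.AY

open Finset Pool.Agent.N929.EG
open scoped Classical

noncomputable section

variable {α σ : Type}

/-- the objects by classes -/
theorem class_sumM {Y : TS α σ} {L : Finset σ} {st : α → α} {fl : α → Finset σ → α} {N : ℕ}
    (h : Fill Y L st fl) (hN : ∀ n, N < n → Y.K n = ∅) {M : Type} [AddCommMonoid M] (φ : α → M) :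
    ∑ w ∈ All Y N, φ w =
      ∑ w ∈ (All Y N).filter (Em Y L), ∑ U ∈ (Sl Y L w).powerset, φ (fl w U) := by
  rw [sum_sigma']
  symm
  refine sum_nbij' (fun x => fl x.1 x.2) (fun w => ⟨st w, Oc Y L w⟩) ?_ ?_ ?_ ?_ ?_
  · rintro ⟨w, U⟩ hx
    rw [mem_sigma, mem_filter, mem_powerset] at hx
    obtain ⟨⟨h1, h2⟩, h3⟩ := hx
    simp only at h1 h2 h3 ⊢
    have e2 := h.fl_K w U h2 h3
    have e3 := Y.len_K _ _ e2
    rw [mem_All, e3]
    refine ⟨e2, ?_⟩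
    by_contra hc
    rw [hN _ (not_le.1 hc)] at e2
    exact absurd e2 (notMem_empty _)
  · intro w hw
    rw [mem_All] at hw
    rw [mem_sigma, mem_filter, mem_powerset]
    simp only
    have g1 := h.st_em w hw.1
    have g2 := h.st_len w hw.1
    have g3 := h.st_sl w hw.1
    refine ⟨⟨mem_All.2 ⟨g1.1, by omega⟩, g1⟩, ?_⟩
    rw [g3]
    intro q hq
    unfold Oc at hq
    unfold Sl
    rw [mem_filter] at hq ⊢
    exact ⟨hq.1, Or.inr hq.2⟩
  · rintro ⟨w, U⟩ hx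
    rw [mem_sigma, mem_filter, mem_powerset] at hx
    obtain ⟨⟨h1, h2⟩, h3⟩ := hx
    simp only at h1 h2 h3 ⊢
    rw [h.st_fl w U h2 h3, h.fl_oc w U h2 h3]
  · intro w hw
    exact h.fl_st w (mem_All.1 hw).1
  · rintro ⟨w, U⟩ hx
    rfl


/-- one family of places -/
theorem ch1 {Y : TS α σ} (hs : Y.s = 2) {N : ℕ} (hN : ∀ n, N < n → Y.K n = ∅) {L E : Finset σ}
    {st : α → α} {fl : α → Finset σ → α} (hfl : Fill Y L st fl) (hLE : ∀ q ∈ L, q ∉ E)
    {F : α → ℝ} (hF0 : ∀ w, 0 ≤ F w) (hF : InvOff Y E F) (z : ℂ) {ρ : ℝ}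
    (hz : ‖1 + z ^ 2‖ ≤ (1 + ‖z‖ ^ 2) * ρ) :
    ‖∑ w ∈ All Y N, (F w : ℂ) * z ^ Y.len w‖ ≤
      ∑ w ∈ All Y N, ‖z‖ ^ Y.len w * (F w * ρ ^ (Sl Y L w).card) := by
  rw [class_sumM hfl hN, class_sumM hfl hN]
  refine (norm_sum_le _ _).trans (sum_le_sum fun w hw => ?_)
  obtain ⟨h1, h2⟩ := mem_filter.1 hw
  have hlen : ∀ U ∈ (Sl Y L w).powerset, Y.len (fl w U) = Y.len w + 2 * U.card := by
    intro U hU
    rw [← hs]
    exact Y.len_K _ _ (hfl.fl_K w U h2 (mem_powerset.1 hU))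
  have e1 : ∑ U ∈ (Sl Y L w).powerset, (F (fl w U) : ℂ) * z ^ Y.len (fl w U) =
      (F w : ℂ) * z ^ Y.len w * (1 + z ^ 2) ^ (Sl Y L w).card := by
    have e3 : (1 + z ^ 2) ^ (Sl Y L w).card = ∑ U ∈ (Sl Y L w).powerset, (z ^ 2) ^ U.card := by
      have := Finset.sum_pow_mul_eq_add_pow (z ^ 2) 1 (Sl Y L w)
      simp only [one_pow, mul_one] at this
      rw [this, add_comm]
    rw [e3, mul_sum]
    refine sum_congr rfl fun U hU => ?_
    rw [hlen U hU, fl_inv' hfl hLE hF h2 U (mem_powerset.1 hU), pow_add, pow_mul]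
    ring
  have e2 : ∑ U ∈ (Sl Y L w).powerset, ‖z‖ ^ Y.len (fl w U) *
      (F (fl w U) * ρ ^ (Sl Y L (fl w U)).card) =
      F w * ‖z‖ ^ Y.len w * ((1 + ‖z‖ ^ 2) * ρ) ^ (Sl Y L w).card := by
    have e3 : (1 + ‖z‖ ^ 2) ^ (Sl Y L w).card =
        ∑ U ∈ (Sl Y L w).powerset, (‖z‖ ^ 2) ^ U.card := by
      have := Finset.sum_pow_mul_eq_add_pow (‖z‖ ^ 2) 1 (Sl Y L w)
      simp only [one_pow, mul_one] at this
      rw [this, add_comm]
    rw [mul_pow, e3, sum_mul, mul_sum]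
    refine sum_congr rfl fun U hU => ?_
    rw [hlen U hU, fl_inv' hfl hLE hF h2 U (mem_powerset.1 hU), pow_add, pow_mul,
      hfl.fl_sl w U h2 (mem_powerset.1 hU)]
    ring
  rw [e1, e2, norm_mul, norm_mul, norm_pow, norm_pow, Complex.norm_real,
    Real.norm_of_nonneg (hF0 w)]
  exact mul_le_mul_of_nonneg_left (pow_le_pow_left₀ (norm_nonneg _) hz _)
    (mul_nonneg (hF0 w) (by positivity))

/-- **Systems of moves with complex geometric weights.** -/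
theorem ch (d : ℕ) : ∃ κ : ℕ, 1 ≤ κ ∧ ∀ (α σ : Type) (Y : TS α σ), Y.s = 2 → Y.d ≤ d →
    ∀ N : ℕ, (∀ n, N < n → Y.K n = ∅) → ∀ (E : Finset σ) (F : α → ℝ), (∀ w, 0 ≤ F w) →
      InvOff Y E F → ∀ (z : ℂ) (η : ℝ), 0 ≤ η → η ≤ 1 →
      ‖1 + z ^ 2‖ ≤ (1 + ‖z‖ ^ 2) * Real.exp (-η) →
      ‖∑ w ∈ All Y N, (F w : ℂ) * z ^ Y.len w‖ ≤
        2 * ∑ w ∈ All Y N, ‖z‖ ^ Y.len w *
          (F w * Real.exp (-(η * ((Pl' Y E w).card : ℝ) / κ))) := by
  obtain ⟨κ, hκ, hsel⟩ := Pool.Agent.N547.EG.Sel.sel d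
  have hκ0 : (0 : ℝ) < κ := by exact_mod_cast hκ
  refine ⟨κ, hκ, ?_⟩
  intro α σ Y hs hd N hN E F hF0 hF z η hη0 hη1 hz
  obtain ⟨ι, _, _, Λ, hΛ, hP⟩ := hsel σ ((Y.U N).filter (fun q => q ∉ E)) Y.cf Y.cf_symm
    (fun q hq => by
      refine le_trans (card_le_card ?_) ((Y.deg N q (mem_filter.1 hq).1).trans hd)
      intro q' hq'
      rw [mem_filter] at hq' ⊢
      exact ⟨(mem_filter.1 hq'.1).1, hq'.2⟩)
  obtain ⟨I, hI⟩ : ∃ I : ℝ, I = (Fintype.card ι : ℝ) := ⟨_, rfl⟩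
  have hI0 : 0 < I := by
    rw [hI]
    exact_mod_cast Fintype.card_pos
  have h1 : ∀ i : ι, ‖∑ w ∈ All Y N, (F w : ℂ) * z ^ Y.len w‖ ≤
      ∑ w ∈ All Y N, ‖z‖ ^ Y.len w * (F w * Real.exp (-η) ^ (Sl Y (Λ i) w).card) := by
    intro i
    obtain ⟨h2, h3⟩ := hΛ i
    obtain ⟨st, fl, hfl⟩ := s_bij α σ Y (Λ i) h3
    exact ch1 hs hN hfl (fun q hq => (mem_filter.1 (h2 hq)).2) hF0 hF z hz
  have h2 : I * ‖∑ w ∈ All Y N, (F w : ℂ) * z ^ Y.len w‖ ≤
      ∑ i : ι, ∑ w ∈ All Y N, ‖z‖ ^ Y.len w *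
        (F w * Real.exp (-η) ^ (Sl Y (Λ i) w).card) := by
    rw [hI, ← nsmul_eq_mul, ← card_univ, ← sum_const]
    exact sum_le_sum fun i _ => h1 i
  have h3 : ∀ w ∈ All Y N, ∑ i : ι, Real.exp (-η) ^ (Sl Y (Λ i) w).card ≤
      I * (2 * Real.exp (-(η * ((Pl' Y E w).card : ℝ) / κ))) := by
    intro w hw
    obtain ⟨hw1, hw2⟩ := mem_All.1 hw
    obtain ⟨hS, hB⟩ := Y.S_U (Y.len w) N w hw1 hw2
    obtain ⟨P, hPdef⟩ : ∃ P, P = Pl' Y E w := ⟨_, rfl⟩
    rw [← hPdef]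
    have hPU : P ⊆ (Y.U N).filter (fun q => q ∉ E) := by
      intro q hq
      rw [hPdef] at hq
      unfold Pl' at hq
      rw [mem_sdiff, mem_union] at hq
      rw [mem_filter]
      exact ⟨hq.1.elim (fun h => hS h) (fun h => hB h), hq.2⟩
    have hSl : ∀ i, Sl Y (Λ i) w = Λ i ∩ P := by
      intro i
      ext q
      unfold Sl
      rw [mem_filter, mem_inter, hPdef]
      unfold Pl'
      rw [mem_sdiff, mem_union]
      constructor
      · rintro ⟨h4, h5⟩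
        exact ⟨h4, h5, (mem_filter.1 ((hΛ i).1 h4)).2⟩
      · rintro ⟨h4, h5, -⟩
        exact ⟨h4, h5⟩
    have hP' := hP P hPU
    have h4 : ∀ i : ι, Real.exp (-η) ^ (Sl Y (Λ i) w).card ≤
        Real.exp (-(η * (P.card : ℝ) / κ)) +
          if κ * (Λ i ∩ P).card < P.card then (1 : ℝ) else 0 := by
      intro i
      rw [hSl i, ← Real.exp_nat_mul]
      obtain ⟨k, hk⟩ : ∃ k, k = (Λ i ∩ P).card := ⟨_, rfl⟩
      rw [← hk]
      split_ifs with h5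
      · have h6 : Real.exp ((k : ℝ) * -η) ≤ 1 := by
          rw [Real.exp_le_one_iff]
          have : 0 ≤ (k : ℝ) * η := by positivity
          linarith
        have h7 := Real.exp_pos (-(η * (P.card : ℝ) / κ))
        linarith
      · rw [add_zero]
        refine Real.exp_le_exp.2 ?_
        have h6 : (P.card : ℝ) ≤ κ * k := by exact_mod_cast not_lt.1 h5
        have h7 : η * (P.card : ℝ) / κ ≤ η * k := by
          rw [div_le_iff₀ hκ0]
          have := mul_le_mul_of_nonneg_left h6 hη0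
          linarith
        linarith
    calc ∑ i : ι, Real.exp (-η) ^ (Sl Y (Λ i) w).card
        ≤ ∑ i : ι, (Real.exp (-(η * (P.card : ℝ) / κ)) +
          if κ * (Λ i ∩ P).card < P.card then (1 : ℝ) else 0) := sum_le_sum fun i _ => h4 i
      _ = I * Real.exp (-(η * (P.card : ℝ) / κ)) +
          ((univ.filter (fun i => κ * (Λ i ∩ P).card < P.card)).card : ℝ) := by
          rw [sum_add_distrib, sum_const, card_univ, nsmul_eq_mul, ← hI, sum_boole]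
      _ ≤ I * Real.exp (-(η * (P.card : ℝ) / κ)) + Real.exp (-(η * (P.card : ℝ) / κ)) * I := by
          refine add_le_add le_rfl (hP'.trans ?_)
          rw [← hI]
          refine mul_le_mul_of_nonneg_right (Real.exp_le_exp.2 ?_) hI0.le
          rw [mul_div_assoc]
          have : 0 ≤ (P.card : ℝ) / κ := by positivity
          nlinarith
      _ = _ := by ring
  have h4 : ∑ i : ι, ∑ w ∈ All Y N, ‖z‖ ^ Y.len w *
        (F w * Real.exp (-η) ^ (Sl Y (Λ i) w).card) ≤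
      I * (2 * ∑ w ∈ All Y N, ‖z‖ ^ Y.len w *
          (F w * Real.exp (-(η * ((Pl' Y E w).card : ℝ) / κ)))) := by
    rw [sum_comm, mul_sum, mul_sum]
    refine sum_le_sum fun w hw => ?_
    have e2 : ∑ i : ι, ‖z‖ ^ Y.len w * (F w * Real.exp (-η) ^ (Sl Y (Λ i) w).card) =
        ‖z‖ ^ Y.len w * F w * ∑ i : ι, Real.exp (-η) ^ (Sl Y (Λ i) w).card := by
      rw [mul_sum]
      refine sum_congr rfl fun i _ => ?_
      ring
    rw [e2]
    refine (mul_le_mul_of_nonneg_left (h3 w hw) (mul_nonneg (by positivity) (hF0 w))).trans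
      (le_of_eq ?_)
    ring
  exact le_of_mul_le_mul_left (h2.trans h4) hI0

theorem sin_bd {x : ℝ} (hx : 1 / 2 ≤ x) (hx1 : x ≤ 1) (t : ℝ) :
    ‖1 + ((x : ℂ) * Complex.exp (t * Complex.I)) ^ 2‖ ≤
      (1 + x ^ 2) * Real.exp (-(Real.sin t ^ 2 / 8)) := by
  have h1 : ‖1 + ((x : ℂ) * Complex.exp (t * Complex.I)) ^ 2‖ ^ 2 =
      (1 + x ^ 2) ^ 2 - 4 * x ^ 2 * Real.sin t ^ 2 := by
    have e : ((x : ℂ) * Complex.exp (t * Complex.I)) ^ 2 =
        ((x ^ 2 * Real.cos (2 * t) : ℝ) : ℂ) + ((x ^ 2 * Real.sin (2 * t) : ℝ) : ℂ) * Complex.I := by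
      rw [mul_pow, ← Complex.exp_nat_mul]
      have e2 : ((2 : ℕ) : ℂ) * (t * Complex.I) = ((2 * t : ℝ) : ℂ) * Complex.I := by
        push_cast
        ring
      rw [e2, Complex.exp_mul_I]
      push_cast
      ring
    rw [e, Complex.sq_norm, Complex.normSq_apply]
    simp only [Complex.add_re, Complex.add_im, Complex.one_re, Complex.one_im, Complex.mul_re,
      Complex.mul_im, Complex.ofReal_re, Complex.ofReal_im, Complex.I_re, Complex.I_im]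
    have h2 := Real.sin_sq_add_cos_sq t
    rw [Real.cos_two_mul, Real.sin_two_mul]
    have h3 : Real.cos t ^ 2 = 1 - Real.sin t ^ 2 := by linarith
    ring_nf
    have h4 : Real.cos t ^ 4 = (1 - Real.sin t ^ 2) ^ 2 := by
      rw [← h3]
      ring
    rw [h4, h3]
    ring
  rw [← pow_le_pow_iff_left₀ (norm_nonneg _) (by positivity) two_ne_zero, h1, mul_pow,
    ← Real.exp_nat_mul]
  have h3 := Real.add_one_le_exp (((2 : ℕ) : ℝ) * (-(Real.sin t ^ 2 / 8)))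
  have h5 : 0 ≤ Real.sin t ^ 2 := sq_nonneg _
  have h8 : x ^ 2 ≤ 1 := pow_le_one₀ (by linarith) hx1
  have h6 : (1 + x ^ 2) ^ 2 ≤ 4 := by
    have h9 : (1 + x ^ 2) ^ 2 ≤ (2 : ℝ) ^ 2 := pow_le_pow_left₀ (by positivity) (by linarith) 2
    linarith
  have h7 : 1 / 4 ≤ x ^ 2 := by nlinarith
  calc (1 + x ^ 2) ^ 2 - 4 * x ^ 2 * Real.sin t ^ 2
      ≤ (1 + x ^ 2) ^ 2 * (((2 : ℕ) : ℝ) * (-(Real.sin t ^ 2 / 8)) + 1) := by
        push_cast
        nlinarith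
    _ ≤ _ := mul_le_mul_of_nonneg_left h3 (by positivity)

end

end Run7.h106.AY
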