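import Pool.Agent.Run7.h106.AY.Ch

/-!
# The number of steps of the path of the O(0) model in a domain: the characteristic function
-/

set_option autoImplicit false
set_option linter.unusedVariables false

namespace Run7.h106.AY

open Finset Pool.Agent.N929.EG Pool.Agent.R131.LT
open Pool.Agent.Y981.QB
open Pool.Agent.R131.LS (Yp mem_Yp Dp pi ps pi_zero traj_eq Ex Ex_mono Ex_add Ex_mul bd xr xr_pos
  coe_TT Z_eq Zr Cl Closed nbr_eq closed bad_le absorb)
open Pool.Agent.W832.HR (Nbr Traj xc Z emb lv HD Hd Bd)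
open TH966.AK (P)
open scoped Classical ENNReal

noncomputable section

theorem domC : ∃ κ : ℕ, 1 ≤ κ ∧ ∀ x : ℝ, 1 / 2 ≤ x → x ≤ 1 →
    ∀ (D : Set P) (p q : P) (F0 : Finset P), p ∈ D → (F0 : Set P) = D →
    ∀ (Q : Finset P) (F : List P → ℝ) (t s : ℝ), (∀ l ∈ Traj D p q, 0 ≤ F l) → InvQ D p q Q F →
    |Ex (Yp D p q) x F0.card (fun m w => F (w.map (pi p)) * Real.cos (t * m + s))| ≤
      2 * Ex (Yp D p q) x F0.card (fun m w => F (w.map (pi p)) *
        Real.exp (-(Real.sin t ^ 2 / 8 *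
          ((((Yp D p q).B w).card - Q.card * TH966.AK.Hex.rule.c0 : ℕ) : ℝ) / κ))) := by
  obtain ⟨κ, hκ, h⟩ := ch dH
  have hκ0 : (0 : ℝ) < κ := by exact_mod_cast hκ
  refine ⟨κ, hκ, ?_⟩
  intro x hx0 hx1 D p q F0 hp hF0 Q F t s hF hI
  have hx : 0 < x := by linarith
  obtain ⟨Y, H⟩ := exD D p
  have hFp : ∀ w, 0 ≤ Fp D p q F w := fun w => by
    unfold Fp
    split_ifs with h2
    · exact hF _ h2
    · exact le_rfl
  have hη0 : 0 ≤ Real.sin t ^ 2 / 8 := by positivity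
  have hη1 : Real.sin t ^ 2 / 8 ≤ 1 := by
    have := Real.sin_sq_le_one t
    linarith
  obtain ⟨z, hz⟩ : ∃ z : ℂ, z = (x : ℂ) * Complex.exp (t * Complex.I) := ⟨_, rfl⟩
  have hzn : ‖z‖ = x := by
    rw [hz, norm_mul, Complex.norm_exp_ofReal_mul_I, mul_one, Complex.norm_real,
      Real.norm_of_nonneg hx.le]
  have h1 := h _ _ Y H.s H.d.le (F0.card - 1) (fun n hn => K_empty hp H F0 hF0 n hn)
    (EQ D p Q) (Fp D p q F) hFp (inv_off hp H hI) z (Real.sin t ^ 2 / 8) hη0 hη1 (by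
      rw [hzn, hz]
      exact sin_bd hx0 hx1 t)
  rw [hzn] at h1
  rw [← sumY hp H F0 hF0 x F (fun m _ => Real.cos (t * m + s))]
  have e1 : ∑ w ∈ All Y (F0.card - 1), x ^ Y.len w *
      (Fp D p q F w * Real.cos (t * (Y.len w : ℝ) + s)) =
      (Complex.exp (s * Complex.I) *
        ∑ w ∈ All Y (F0.card - 1), (Fp D p q F w : ℂ) * z ^ Y.len w).re := by
    rw [mul_sum, Complex.re_sum]
    refine sum_congr rfl fun w _ => ?_
    have e2 : Complex.exp (s * Complex.I) * ((Fp D p q F w : ℂ) * z ^ Y.len w) =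
        ((Fp D p q F w * x ^ Y.len w : ℝ) : ℂ) *
          Complex.exp (((t * (Y.len w : ℝ) + s : ℝ) : ℂ) * Complex.I) := by
      rw [hz, mul_pow, ← Complex.exp_nat_mul]
      have e3 : Complex.exp (((t * (Y.len w : ℝ) + s : ℝ) : ℂ) * Complex.I) =
          Complex.exp (s * Complex.I) * Complex.exp ((Y.len w : ℂ) * (t * Complex.I)) := by
        rw [← Complex.exp_add]
        congr 1
        push_cast
        ring
      rw [e3]
      push_cast
      ring
    rw [e2, Complex.re_ofReal_mul, Complex.exp_ofReal_mul_I_re]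
    ring
  have e4 : |∑ w ∈ All Y (F0.card - 1), x ^ Y.len w *
      (Fp D p q F w * Real.cos (t * (Y.len w : ℝ) + s))| ≤
      ‖∑ w ∈ All Y (F0.card - 1), (Fp D p q F w : ℂ) * z ^ Y.len w‖ := by
    rw [e1]
    refine (Complex.abs_re_le_norm _).trans (le_of_eq ?_)
    rw [norm_mul, Complex.norm_exp_ofReal_mul_I, one_mul]
  have h2 : ∑ w ∈ All Y (F0.card - 1), x ^ Y.len w * (Fp D p q F w *
      Real.exp (-(Real.sin t ^ 2 / 8 * ((Pl' Y (EQ D p Q) w).card : ℝ) / κ))) ≤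
      Ex (Yp D p q) x F0.card (fun m w => F (w.map (pi p)) *
        Real.exp (-(Real.sin t ^ 2 / 8 *
          ((((Yp D p q).B w).card - Q.card * TH966.AK.Hex.rule.c0 : ℕ) : ℝ) / κ))) := by
    rw [← sumY hp H F0 hF0 x F (fun m w => Real.exp (-(Real.sin t ^ 2 / 8 *
          ((((Yp D p q).B w).card - Q.card * TH966.AK.Hex.rule.c0 : ℕ) : ℝ) / κ)))]
    refine sum_le_sum fun w hw => ?_
    refine mul_le_mul_of_nonneg_left ?_ (by positivity)
    refine mul_le_mul_of_nonneg_left ?_ (hFp w)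
    obtain ⟨k, hk⟩ : ∃ k, k = ((Yp D p q).B w).card - Q.card * TH966.AK.Hex.rule.c0 := ⟨_, rfl⟩
    rw [← hk]
    have hB : (Yp D p q).B w = (ZD D p).B w := rfl
    have h3 : k ≤ (Pl' Y (EQ D p Q) w).card := by
      have h5 := le_Pl' Y (EQ D p Q) w
      have h7 := EQ_card D p Q
      rw [hB, ← H.B] at hk
      omega
    have h4 : (k : ℝ) ≤ (Pl' Y (EQ D p Q) w).card := by exact_mod_cast h3
    refine Real.exp_le_exp.2 (neg_le_neg ?_)
    exact div_le_div_of_nonneg_right (mul_le_mul_of_nonneg_left h4 hη0) hκ0.le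
  exact e4.trans (h1.trans (mul_le_mul_of_nonneg_left h2 (by norm_num)))

end

end Run7.h106.AY
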