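import Pool.Agent.Run7.h106.AY.Dom

/-!
# The number of steps of the path of the O(0) model in a domain: the characteristic function
-/

set_option autoImplicit false
set_option linter.unusedVariables false

namespace Run7.h106.AY

open Finset Pool.Agent.N929.EG Pool.Agent.R131.LT
open Pool.Agent.Y981.QB
open Pool.Agent.R131.LS (Yp mem_Yp Dp pi ps pi_zero traj_eq Ex Ex_mono Ex_add Ex_mul bd xr xr_pos
  coe_TT Z_eq Zr Cl Closed nbr_eq closed bad_le absorb)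
open Pool.Agent.W832.HR (Nbr Traj xc Z emb lv HD Hd Bd)
open TH966.AK (P)
open scoped Classical ENNReal

noncomputable section

theorem xr_half : 1 / 2 ≤ xr := by
  unfold xr
  have h2 : Real.sqrt 2 ≤ 2 := by
    rw [Real.sqrt_le_left (by norm_num)]
    norm_num
  have h3 : Real.sqrt (2 + Real.sqrt 2) ≤ 2 := by
    rw [Real.sqrt_le_left (by norm_num)]
    linarith
  have h0 : 0 < Real.sqrt (2 + Real.sqrt 2) := Real.sqrt_pos.2 (by positivity)
  exact one_div_le_one_div_of_le h0 h3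

theorem chF (W : Set ℂ) (hW : IsOpen W) (hc : IsConnected W)
    (a b : ℂ) (hab : a ≠ b) (ε ε' : ℝ) (hε : ε = 1 ∨ ε = -1) (hε' : ε' = 1 ∨ ε' = -1) (ρ : ℝ)
    (hρ : 0 < ρ) (ha : HD a ε ρ ⊆ W) (hb : HD b ε' ρ ⊆ W) (M : ℝ) :
    ∃ K : Set ℂ, K ⊆ W ∧ IsCompact K ∧ ∃ C : ℝ, 1 ≤ C ∧
      ∀ δ : ℝ, 0 < δ → C * δ ≤ 1 →
      ∀ (D : Set P) (p q : P), Bd ε p → Bd ε' q →
      C * ‖(δ : ℂ) * emb p - a‖ ≤ 1 → C * ‖(δ : ℂ) * emb q - b‖ ≤ 1 →
      (∀ v : P, (δ : ℂ) * emb v ∈ K → v ∈ D) → Hd δ ε ρ p ⊆ D → Hd δ ε' ρ q ⊆ D →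
      (∀ v ∈ D, ‖(δ : ℂ) * emb v‖ ≤ M) → Closed D → ∀ x : ℝ, xr ≤ x → x ≤ 544 / 1000 →
      (Traj D p q).Finite ∧ 0 < Zx x D p q ∧
      (∀ l ∈ Traj D p q, 1 ≤ C * δ * ((l.length - 1 : ℕ) : ℝ)) ∧
      ∀ (Q : Finset P) (F : List P → ℝ) (t s : ℝ), C * δ * Q.card ≤ 1 →
        (∀ l ∈ Traj D p q, 0 ≤ F l ∧ F l ≤ 1) → InvQ D p q Q F →
        |Mx x D p q (fun l => F l * Real.cos (t * ((l.length - 1 : ℕ) : ℝ) + s))| ≤
          2 * Mx x D p q (fun l => F l *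
            Real.exp (-(Real.sin t ^ 2 * ((l.length - 1 : ℕ) : ℝ) / C))) +
          C * Real.exp (-(1 / (C * δ))) := by
  obtain ⟨K, hK, hKc, C₁, hC₁, h⟩ := Pool.Agent.Y981.Sup.low W hW hc a b hab ε ε' hε hε' ρ hρ ha hb
  obtain ⟨C₃, hC₃, hcard⟩ := domain_card M
  obtain ⟨C0', hC0'⟩ := TH966.AK.Hex.poor
  obtain ⟨C0, hC0⟩ : ∃ C0 : ℝ, C0 = |C0'| := ⟨_, rfl⟩
  have hC00 : 0 ≤ C0 := by rw [hC0]; exact abs_nonneg _
  have hab' : 0 < ‖a - b‖ := norm_pos_iff.2 (sub_ne_zero.2 hab)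
  obtain ⟨θ, hθ⟩ : ∃ θ : ℝ, θ = 544 / 1000 * (459 / 250) := ⟨_, rfl⟩
  have hθ0 : 0 ≤ θ := by rw [hθ]; norm_num
  have hθ1 : θ < 1 := by rw [hθ]; norm_num
  have hθ2 : 0 < 1 - θ := by linarith
  obtain ⟨c1, hc1⟩ : ∃ c1 : ℝ, c1 = ‖a - b‖ / 2 := ⟨_, rfl⟩
  have hc1pos : 0 < c1 := by rw [hc1]; positivity
  obtain ⟨κ, hκ⟩ : ∃ κ : ℝ, κ = 1 / (2 * ((10000 : ℕ) : ℝ)) := ⟨_, rfl⟩
  have hκ0 : 0 < κ := by rw [hκ]; norm_num
  obtain ⟨c0, hc0⟩ : ∃ c0 : ℕ, c0 = TH966.AK.Hex.rule.c0 := ⟨_, rfl⟩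
  have hdiv : 0 < 32 / ‖a - b‖ := by positivity
  have hdiv1 : 0 < 1 / c1 := by positivity
  have hdiv2 : 0 ≤ 2 * (c0 : ℝ) / (κ * c1) := by positivity
  obtain ⟨κ', hκ', hdom⟩ := domC
  have hκ'0 : (0 : ℝ) < κ' := by exact_mod_cast hκ'
  obtain ⟨lam, hlam⟩ : ∃ lam : ℝ, lam = c1 * (1 - θ) := ⟨_, rfl⟩
  have hlam0 : 0 < lam := by rw [hlam]; positivity
  obtain ⟨A, hA⟩ : ∃ A : ℝ, A = C0 / (1 - θ) * ((C₁.factorial : ℝ) * (2 / lam) ^ C₁) := ⟨_, rfl⟩
  have hA0 : 0 ≤ A := by rw [hA]; positivity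
  obtain ⟨C, hCdef⟩ : ∃ C : ℝ, C = C₁ + 100 + 32 / ‖a - b‖ + 1 / c1 + 2 * (c0 : ℝ) / (κ * c1) +
    16 * κ' / κ + 2 / lam + 2 * A := ⟨_, rfl⟩
  have hdiv3 : 0 ≤ 16 * κ' / κ := by positivity
  have hdiv4 : 0 < 2 / lam := by positivity
  have hC1r : (9 : ℝ) ≤ C₁ := by exact_mod_cast hC₁
  have hC100 : 100 ≤ C := by rw [hCdef]; linarith
  have hCC1 : (C₁ : ℝ) ≤ C := by rw [hCdef]; linarith
  have hCab : 32 / ‖a - b‖ ≤ C := by rw [hCdef]; linarith
  have hCc : 1 / c1 ≤ C := by rw [hCdef]; linarith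
  have hCq : 2 * (c0 : ℝ) / (κ * c1) ≤ C := by rw [hCdef]; linarith
  have hCκ : 16 * κ' / κ ≤ C := by rw [hCdef]; linarith
  have hClam : 2 / lam ≤ C := by rw [hCdef]; linarith
  have hCA : 2 * A ≤ C := by rw [hCdef]; linarith
  refine ⟨K, hK, hKc, C, by linarith, ?_⟩
  have hxr := xr_pos
  intro δ hδ hCδ D p q hp hq hpa hqb hKD hpD hqD hDM hcl x hx hx'
  have hx0 : 0 < x := lt_of_lt_of_le xr_pos hx
  have hx1 : x ≤ 1 := by linarith
  have hδ1 : δ ≤ 1 / 100 := by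
    by_contra hcon
    have : 1 / 100 < δ := not_le.1 hcon
    nlinarith
  have hmono : ∀ x : ℝ, 0 ≤ x → C * x ≤ 1 → C₁ * x ≤ 1 := fun x hx h1 =>
    (mul_le_mul_of_nonneg_right hCC1 hx).trans h1
  obtain ⟨hpq, hlow⟩ := h δ hδ (hmono δ hδ.le hCδ) D p q hp hq (hmono _ (norm_nonneg _) hpa)
    (hmono _ (norm_nonneg _) hqb) hKD hpD hqD
  obtain ⟨D', hD', hDc⟩ := hcard δ hδ (by linarith) D hDM
  have hpm : p ∈ D := hpD (by
    show ‖(δ : ℂ) * emb p - δ * emb p‖ < ρ ∧ 0 ≤ ε * (lv (emb p) - lv (emb p))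
    simp [hρ])
  have hfin : (Traj D p q).Finite := by
    rw [traj_eq, ← coe_TT hpm D' hD']
    exact Finset.finite_toSet _
  have hZlow : δ ^ C₁ ≤ Zx x D p q := by
    have h1 := hlow D (Set.Subset.refl D)
    rw [Z_eq hpm D' hD'] at h1
    have h2 : δ ^ C₁ ≤ Zr D p q := by
      refine (ENNReal.ofReal_le_ofReal_iff ?_).1 h1
      unfold Zr
      exact finsum_nonneg fun l => finsum_nonneg fun _ => by
        have := xr_pos
        positivity
    refine h2.trans ?_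
    unfold Zr Zx
    rw [finsum_mem_eq_finite_toFinset_sum _ hfin, finsum_mem_eq_finite_toFinset_sum _ hfin]
    exact Finset.sum_le_sum fun l _ => pow_le_pow_left₀ xr_pos.le hx _
  have hZ : 0 < Zx x D p q := lt_of_lt_of_le (by positivity) hZlow
  -- the walks are long
  have hdL : c1 / δ ≤ dst p q := by
    rw [hc1]
    exact far hδ (by
      have := mul_le_mul_of_nonneg_right hCab hab'.le
      rw [div_mul_cancel₀ _ hab'.ne'] at this
      linarith) (by linarith) hpa hqb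
  have hlong' : ∀ l ∈ Traj D p q, c1 / δ ≤ ((l.length - 1 : ℕ) : ℝ) := by
    intro l hl
    rw [traj_eq] at hl
    refine hdL.trans (sw_far (l := l) (n := l.length - 1) ?_ hl.2.1).1
    refine ⟨?_, hl.1, hl.2.2.2.1, hl.2.2.1⟩
    have : l ≠ [] := by
      intro h0
      have := hl.1
      rw [h0] at this
      simp at this
    have := List.length_pos_iff.2 this
    omega
  have hlong : ∀ m, ∀ w ∈ (Yp D p q).K m, c1 / δ ≤ m := by
    intro m w hw
    obtain ⟨h1, h2⟩ := (mem_Yp hpm).1 hw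
    rw [← traj_eq] at h2
    have h3 := hlong' _ h2
    rwa [List.length_map, h1, Nat.add_sub_cancel] at h3
  obtain ⟨n1, hn1⟩ : ∃ n1 : ℕ, n1 = ⌈c1 / δ⌉₊ := ⟨_, rfl⟩
  have hcd : 0 < c1 / δ := by positivity
  have hn1c : c1 / δ ≤ n1 := by rw [hn1]; exact Nat.le_ceil _
  have hn1p : 0 < (n1 : ℝ) := lt_of_lt_of_le hcd hn1c
  have hn1' : 1 ≤ n1 := by exact_mod_cast hn1p
  have hKn : ∀ m, m < n1 → (Yp D p q).K m = ∅ := by
    intro m hm
    rw [Finset.eq_empty_iff_forall_notMem]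
    intro w hw
    have h1 := hlong m w hw
    have h2 : n1 ≤ m := by
      rw [hn1]
      exact Nat.ceil_le.2 h1
    omega
  have h0 : Dp D p 0 := by
    unfold Dp
    rwa [pi_zero]
  have hclD : Cl D := by
    intro v hv
    obtain ⟨u, u', h1, h2, h3, h4⟩ := hcl v hv
    rw [nbr_eq] at h2 h3
    exact ⟨u, u', h1, h2, h3, h4⟩
  have hbad : Ex (Yp D p q) x D'.card (bd (Yp D p q) κ) ≤ C0 * θ ^ n1 / (1 - θ) := by
    have hxθ : x * (459 / 250) ≤ θ := by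
      rw [hθ]
      exact mul_le_mul_of_nonneg_right hx' (by norm_num)
    have h1 : Ex (Yp D p q) x D'.card (bd (Yp D p q) κ) ≤
        C0 * (x * (459 / 250)) ^ n1 / (1 - x * (459 / 250)) := by
      rw [hκ]
      refine bad_le TH966.AK.Hex.rule (ps p q) hx0 D'.card h0
        (fun U U' hT hx => closed hclD p U U' hT hx) (by norm_num) (by norm_num)
        (lt_of_le_of_lt hxθ hθ1) hC00 (fun n => (hC0' n).trans ?_) n1 hn1' hKn
      rw [hC0]
      exact mul_le_mul_of_nonneg_right (le_abs_self _) (by positivity)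
    refine h1.trans (div_le_div₀ (by positivity) ?_ hθ2 (by linarith))
    exact mul_le_mul_of_nonneg_left (pow_le_pow_left₀ (by positivity) hxθ _) hC00
  refine ⟨hfin, hZ, fun l hl => ?_, ?_⟩
  · have h1 := hlong' l hl
    rw [div_le_iff₀ hδ] at h1
    have h2 : 1 ≤ C * c1 := by rwa [div_le_iff₀ hc1pos] at hCc
    have h3 : C * c1 ≤ C * (((l.length - 1 : ℕ) : ℝ) * δ) :=
      mul_le_mul_of_nonneg_left h1 (by linarith)
    linarith
  intro Q F t s hQ hF hI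
  have hC0' : 0 < C := by linarith
  have hxhalf : 1 / 2 ≤ x := xr_half.trans hx
  have hm := hdom x hxhalf hx1 D p q D' hpm hD' Q F t s (fun l hl => (hF l hl).1) hI
  have hQc : (Q.card : ℝ) * c0 ≤ κ / 2 * (c1 / δ) :=
    len_num1 hκ0 hc1pos hδ (Nat.cast_nonneg _) hCq hQ
  have hs0 : 0 ≤ Real.sin t ^ 2 := sq_nonneg _
  have hup : Ex (Yp D p q) x D'.card (fun m w => F (w.map (pi p)) *
        Real.exp (-(Real.sin t ^ 2 / 8 *
          ((((Yp D p q).B w).card - Q.card * TH966.AK.Hex.rule.c0 : ℕ) : ℝ) / κ'))) ≤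
      Ex (Yp D p q) x D'.card (fun m w => bd (Yp D p q) κ m w +
        F (w.map (pi p)) * Real.exp (-(Real.sin t ^ 2 * (m : ℝ) / C))) := by
    refine Ex_mono hx0 fun m w hw => ?_
    obtain ⟨h1, h2⟩ := (mem_Yp hpm).1 hw
    rw [← traj_eq] at h2
    obtain ⟨f0, f1⟩ := hF _ h2
    rw [← hc0]
    obtain ⟨k, hk⟩ : ∃ k, k = ((Yp D p q).B w).card - Q.card * c0 := ⟨_, rfl⟩
    rw [← hk]
    have hm0 : (0 : ℝ) < (m : ℝ) + 1 := by positivity
    have hm00 : (0 : ℝ) ≤ (m : ℝ) := Nat.cast_nonneg m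
    have hF2 : 0 ≤ F (w.map (pi p)) * Real.exp (-(Real.sin t ^ 2 * (m : ℝ) / C)) :=
      mul_nonneg f0 (Real.exp_pos _).le
    unfold bd
    split_ifs with h4
    · have h5 : Real.exp (-(Real.sin t ^ 2 / 8 * (k : ℝ) / κ')) ≤ 1 := by
        rw [Real.exp_le_one_iff]
        have : 0 ≤ Real.sin t ^ 2 / 8 * (k : ℝ) / κ' := by positivity
        linarith
      have h6 : F (w.map (pi p)) * Real.exp (-(Real.sin t ^ 2 / 8 * (k : ℝ) / κ')) ≤ 1 * 1 :=
        mul_le_mul f1 h5 (Real.exp_pos _).le zero_le_one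
      linarith
    · rw [zero_add]
      refine mul_le_mul_of_nonneg_left (Real.exp_le_exp.2 (neg_le_neg ?_)) f0
      have h5 := hlong m w hw
      have h6 : (((Yp D p q).B w).card : ℝ) ≤ k + Q.card * c0 := by
        have : ((Yp D p q).B w).card ≤ k + Q.card * c0 := by omega
        exact_mod_cast this
      have h7 := not_lt.1 h4
      have h8 : κ / 2 * (c1 / δ) ≤ κ / 2 * (m : ℝ) :=
        mul_le_mul_of_nonneg_left h5 (by positivity)
      have h9 : κ / 2 * (m : ℝ) ≤ k := by nlinarith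
      have h10 : (m : ℝ) / C ≤ (k : ℝ) / (8 * κ') := by
        rw [div_le_div_iff₀ hC0' (by positivity)]
        rw [div_le_iff₀ hκ0] at hCκ
        nlinarith
      calc Real.sin t ^ 2 * (m : ℝ) / C = Real.sin t ^ 2 * ((m : ℝ) / C) := by ring
        _ ≤ Real.sin t ^ 2 * ((k : ℝ) / (8 * κ')) := mul_le_mul_of_nonneg_left h10 hs0
        _ = _ := by
          field_simp
  rw [Ex_add] at hup
  obtain ⟨R, hR⟩ : ∃ R : ℝ, R = Mx x D p q (fun l => F l *
    Real.exp (-(Real.sin t ^ 2 * ((l.length - 1 : ℕ) : ℝ) / C))) := ⟨_, rfl⟩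
  have hRR : Ex (Yp D p q) x D'.card (fun m w => F (w.map (pi p)) *
      Real.exp (-(Real.sin t ^ 2 * (m : ℝ) / C))) = R * Zx x D p q := by
    rw [hR]
    unfold Mx
    rw [div_mul_cancel₀ _ hZ.ne',
      sumx_eq hpm D' hD' x (fun m l => F l * Real.exp (-(Real.sin t ^ 2 * (m : ℝ) / C)))]
  have hbb : C0 * θ ^ n1 / (1 - θ) ≤ C / 2 * Real.exp (-(1 / (C * δ))) * Zx x D p q := by
    have h2 : θ ^ n1 ≤ Real.exp (-(lam / δ)) := by
      have h3 : θ ≤ Real.exp (-(1 - θ)) := by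
        have := Real.add_one_le_exp (-(1 - θ))
        linarith
      calc θ ^ n1 ≤ Real.exp (-(1 - θ)) ^ n1 := pow_le_pow_left₀ hθ0 h3 n1
        _ = Real.exp (-((n1 : ℝ) * (1 - θ))) := by
            rw [← Real.exp_nat_mul]
            ring_nf
        _ ≤ Real.exp (-(lam / δ)) := by
            refine Real.exp_le_exp.2 (neg_le_neg ?_)
            rw [hlam, mul_div_right_comm]
            exact mul_le_mul_of_nonneg_right hn1c hθ2.le
    have h4 : 1 ≤ ((C₁.factorial : ℝ) * (2 / lam) ^ C₁) * Real.exp (lam / (2 * δ)) * δ ^ C₁ := by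
      have h5 := Real.pow_div_factorial_le_exp (lam / (2 * δ)) (by positivity) C₁
      have hf : (0 : ℝ) < (C₁.factorial : ℝ) := by exact_mod_cast Nat.factorial_pos C₁
      rw [div_le_iff₀ hf] at h5
      have h6 : (2 / lam) ^ C₁ * (lam / (2 * δ)) ^ C₁ * δ ^ C₁ = 1 := by
        rw [← mul_pow, ← mul_pow]
        have : 2 / lam * (lam / (2 * δ)) * δ = 1 := by field_simp
        rw [this, one_pow]
      calc (1 : ℝ) = (2 / lam) ^ C₁ * (lam / (2 * δ)) ^ C₁ * δ ^ C₁ := h6.symm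
        _ ≤ (2 / lam) ^ C₁ * (Real.exp (lam / (2 * δ)) * C₁.factorial) * δ ^ C₁ := by
            gcongr
        _ = _ := by ring
    have h7 : Real.exp (-(lam / δ)) ≤ ((C₁.factorial : ℝ) * (2 / lam) ^ C₁) *
        Real.exp (-(lam / (2 * δ))) * Zx x D p q := by
      have e : Real.exp (lam / (2 * δ)) * Real.exp (-(lam / δ)) = Real.exp (-(lam / (2 * δ))) := by
        rw [← Real.exp_add]
        congr 1
        field_simp
        ring
      calc Real.exp (-(lam / δ)) = 1 * Real.exp (-(lam / δ)) := (one_mul _).symm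
        _ ≤ (((C₁.factorial : ℝ) * (2 / lam) ^ C₁) * Real.exp (lam / (2 * δ)) * δ ^ C₁) *
            Real.exp (-(lam / δ)) := mul_le_mul_of_nonneg_right h4 (Real.exp_pos _).le
        _ = ((C₁.factorial : ℝ) * (2 / lam) ^ C₁) *
            (Real.exp (lam / (2 * δ)) * Real.exp (-(lam / δ))) * δ ^ C₁ := by ring
        _ = ((C₁.factorial : ℝ) * (2 / lam) ^ C₁) * Real.exp (-(lam / (2 * δ))) * δ ^ C₁ := by
            rw [e]
        _ ≤ _ := mul_le_mul_of_nonneg_left hZlow (by positivity)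
    have h8 : Real.exp (-(lam / (2 * δ))) ≤ Real.exp (-(1 / (C * δ))) := by
      refine Real.exp_le_exp.2 (neg_le_neg ?_)
      rw [div_le_iff₀ hlam0] at hClam
      rw [div_le_div_iff₀ (by positivity) (by positivity)]
      nlinarith
    calc C0 * θ ^ n1 / (1 - θ) = C0 / (1 - θ) * θ ^ n1 := by ring
      _ ≤ C0 / (1 - θ) * (((C₁.factorial : ℝ) * (2 / lam) ^ C₁) *
          Real.exp (-(1 / (C * δ))) * Zx x D p q) := by
          refine mul_le_mul_of_nonneg_left ((h2.trans h7).trans ?_) (by positivity)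
          exact mul_le_mul_of_nonneg_right (mul_le_mul_of_nonneg_left h8 (by positivity)) hZ.le
      _ = A * Real.exp (-(1 / (C * δ))) * Zx x D p q := by rw [hA]; ring
      _ ≤ _ := by
          refine mul_le_mul_of_nonneg_right (mul_le_mul_of_nonneg_right ?_ (Real.exp_pos _).le) hZ.le
          linarith
  have e1 : Mx x D p q (fun l => F l * Real.cos (t * ((l.length - 1 : ℕ) : ℝ) + s)) =
      Ex (Yp D p q) x D'.card (fun m w => F (w.map (pi p)) * Real.cos (t * m + s)) /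
        Zx x D p q := by
    unfold Mx
    rw [sumx_eq hpm D' hD' x (fun m l => F l * Real.cos (t * m + s))]
  rw [hRR] at hup
  rw [e1, abs_div, abs_of_pos hZ, div_le_iff₀ hZ, ← hR]
  refine hm.trans ?_
  calc _ ≤ 2 * (C / 2 * Real.exp (-(1 / (C * δ))) * Zx x D p q + R * Zx x D p q) :=
        mul_le_mul_of_nonneg_left (hup.trans (add_le_add (hbad.trans hbb) le_rfl)) (by norm_num)
    _ = _ := by ring

end

end Run7.h106.AY
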